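import Pool.Agent.Work.MP_392c8e_co_odd.PlaneApex

/-!
# Circular colourings of plane subcubic graphs with isolated or apex clusters of 5-cycles
-/

namespace Pool.Agent.Results.MP_392c8e_co.ApexColouring

open Finset Pool.Agent.Sub392 Pool.Agent.OddFlow

variable {V : Type} [Fintype V] [DecidableEq V]

/-- `P` is the set of edges of a cycle of length five. -/
def IsFive (G : SimpleGraph V) (P : Finset (Sym2 V)) : Prop :=
  ∃ (v : V) (c : G.Walk v v), c.IsCycle ∧ c.length = 5 ∧ c.edges.toFinset = P

/-- The vertices of the edges in `P`. -/
def ends (P : Finset (Sym2 V)) : Finset V := {x | ∃ e ∈ P, x ∈ e}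

/-- The contribution of the 5-cycle `P` to the edge `e`.  If `P` has no apex (`none`), then it is
`2` for the edges of `P`, and other edges get `-3` for each end on `P`.  If `P` has the apex `y`,
then it is `5` for the two edges of `P` at `y` and `0` for the other edges of `P`, and other edges
get `-5` for each end on `P` different from `y`. -/
def contr (a : Option V) (P : Finset (Sym2 V)) (e : Sym2 V) : ℤ :=
  match a with
  | none => if e ∈ P then 2 else -3 * #{x ∈ ends P | x ∈ e}
  | some y => if e ∈ P then (if y ∈ e then 5 else 0) else -5 * #{x ∈ ends P | x ∈ e ∧ x ≠ y}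

open scoped Classical in
/-- The weight of the edge `e`: `10 (p - 2 q)` plus `10 q - 3 p` times the sum of the contributions
of all 5-cycles. -/
noncomputable def weight (G : SimpleGraph V) (apex : Finset (Sym2 V) → Option V) (p q : ℕ)
    (e : Sym2 V) : ℤ :=
  10 * (p - 2 * q) + (10 * q - 3 * p) * ∑ P with IsFive G P, contr (apex P) P e

/-- Some 5-cycles have an apex: a vertex such that the three edges of the 5-cycle which are not at
the apex lie on no other 5-cycle.  The 5-cycles without apex have no vertex in common with another
5-cycle. -/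
def Apex (G : SimpleGraph V) (apex : Finset (Sym2 V) → Option V) : Prop :=
  ∀ P Q : Finset (Sym2 V), IsFive G P → IsFive G Q → P ≠ Q →
    match apex P with
    | none => Disjoint (ends P) (ends Q)
    | some y => ∀ e ∈ P, y ∉ e → e ∉ Q

/-- The number of vertices at which exactly one edge of the walk `c` lies on a 5-cycle. -/
noncomputable def turns (G : SimpleGraph V) {v : V} (c : G.Walk v v) : ℕ :=
  {x : V | {e | (e ∈ c.edges ∧ x ∈ e) ∧ ∃ P, IsFive G P ∧ e ∈ P}.ncard = 1}.ncard

/-- Let `G` be a triangle-free graph with all degrees at most `3` drawn on the sphere, and let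
`20 / 7 ≤ p / q ≤ 10 / 3`.  Suppose that some 5-cycles have an apex (on the 5-cycle), the other
5-cycles are isolated, all edges have nonnegative weight and every odd cycle of length at least
seven has weight at least `20 p`; or that `(p, q) = (20, 7)`, distinct 5-cycles are disjoint, no
7-cycle has an edge on a 5-cycle and every 9-cycle has at most seven vertices at which exactly one
of its two edges lies on a 5-cycle.  Then `G` has a `(p, q)`-colouring. -/
theorem result (V : Type) [Fintype V] [DecidableEq V] (G : SimpleGraph V) [DecidableRel G.Adj]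
    (R : Rot G) (hplane : R.Plane) (hΔ : ∀ v, G.degree v ≤ 3) (hG : G.CliqueFree 3) (p q : ℕ)
    (hq : 1 ≤ q) (h20 : 20 * q ≤ 7 * p) (h3 : 3 * p ≤ 10 * q)
    (h : (∃ apex : Finset (Sym2 V) → Option V, Apex G apex ∧
        (∀ P y, IsFive G P → apex P = some y → y ∈ ends P) ∧
        (∀ e ∈ G.edgeSet, 0 ≤ weight G apex p q e) ∧
        ∀ (v : V) (c : G.Walk v v), c.IsCycle → Odd c.length → 7 ≤ c.length →
          (20 * p : ℤ) ≤ (c.edges.map (weight G apex p q)).sum) ∨
      (p = 20 ∧ q = 7 ∧ Apex G (fun _ => none) ∧
        ∀ (v : V) (c : G.Walk v v), c.IsCycle →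
          (c.length = 7 → ∀ e ∈ c.edges, ∀ P, IsFive G P → e ∉ P) ∧
          (c.length = 9 → turns G c ≤ 7))) :
    ∃ c : V → ℕ, (∀ v, c v < p) ∧
      ∀ u v, G.Adj u v → (q : ℤ) ≤ |(c u : ℤ) - c v| ∧ |(c u : ℤ) - c v| ≤ p - q := by
  classical
  have hfive : ∀ P, IsFive G P ↔ P ∈ pent G := by
    intro P
    unfold IsFive pent
    rw [mem_filter]
    constructor
    · rintro ⟨v, c, h1, h2, h3⟩
      exact ⟨mem_univ _, v, c, h1, h2, h3.symm⟩
    · rintro ⟨_, v, c, h1, h2, h3⟩
      exact ⟨v, c, h1, h2, h3.symm⟩
  have hends : ∀ P : Finset (Sym2 V), ends P = verts P := by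
    intro P
    ext x
    unfold ends verts
    simp
  have hpent : (univ.filter fun P => IsFive G P) = pent G := by
    ext P
    rw [mem_filter, hfive]
    simp
  rcases h with ⟨apex, hA, hy, hpos, hodd⟩ | ⟨rfl, rfl, hd, hc⟩
  · obtain ⟨v0⟩ := hplane.1.nonempty
    set A : Finset (Sym2 V) → Prop := fun P => (apex P).isSome with hAdef
    set y : Finset (Sym2 V) → V := fun P => (apex P).getD v0 with hydef
    have hcontr : ∀ P e, contr (apex P) P e = if e ∈ P then gainA A y P e else
        -∑ x ∈ (verts P).filter (fun x => x ∈ e), lossA A y P x := by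
      intro P e
      cases h1 : apex P with
      | none =>
        have h2 : ¬ A P := by simp [hAdef, h1]
        unfold contr gainA lossA
        simp only [h2, if_false, sum_const, nsmul_eq_mul, hends]
        split_ifs
        · rfl
        · ring
      | some z =>
        have h2 : A P := by simp [hAdef, h1]
        have h3 : y P = z := by simp [hydef, h1]
        unfold contr gainA lossA
        simp only [h2, if_true, hends, h3]
        split_ifs with h4 h5 h5
        · rfl
        · rfl
        · rw [← filter_filter, ← sum_filter_not_add_sum_filter _ (fun x => x = z)]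
          rw [sum_congr rfl (g := fun _ => (5 : ℤ)) (fun x hx => by
              rw [if_neg (mem_filter.1 hx).2]),
            sum_congr (s₁ := ((verts P).filter (fun x => x ∈ e)).filter (fun x => x = z)) rfl
              (g := fun _ => (0 : ℤ)) (fun x hx => by rw [if_pos (mem_filter.1 hx).2])]
          rw [sum_const, sum_const_zero, nsmul_eq_mul]
          ring
    have hw : ∀ e, weight G apex p q e =
        (10 * (p - 2 * q) + (10 * q - 3 * p) * netA G A y e : ℤ) := by
      intro e
      unfold weight netA
      rw [sum_congr (s₂ := pent G) (by convert hpent) (fun P _ => hcontr P e)]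
    refine plane_apex R hplane hΔ hG A y ?_ ?_ hq h20 h3 (fun e he => ?_)
      (fun v c hc ho h7 => ?_)
    · intro P hP hAP
      obtain ⟨z, hz⟩ := Option.isSome_iff_exists.1 hAP
      have hyz : y P = z := by simp [hydef, hz]
      rw [hyz]
      refine ⟨?_, fun Q hQ hne e he hze => ?_⟩
      · rw [← hends]
        exact hy P z ((hfive P).2 hP) hz
      · have h1 := hA P Q ((hfive P).2 hP) ((hfive Q).2 hQ) (Ne.symm hne)
        rw [hz] at h1
        exact h1 e he hze
    · intro P hP hAP Q hQ hne
      have h1 := hA P Q ((hfive P).2 hP) ((hfive Q).2 hQ) (Ne.symm hne)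
      have h2 : apex P = none := by
        cases h3 : apex P with
        | none => rfl
        | some z => exact absurd (by simp [hAdef, h3]) hAP
      rw [h2] at h1
      rw [← hends, ← hends]
      exact h1
    · rw [← hw]
      exact hpos e he
    · rw [sum_congr rfl fun e _ => (hw e).symm, List.sum_toFinset _ hc.edges_nodup]
      exact hodd v c hc ho h7
  · have hdj : DisjFive G := by
      intro u v c c' hc1 hc2 hl hl' hx e
      obtain ⟨x, hx1, hx2⟩ := hx
      have hmem : ∀ {u : V} (c : G.Walk u u), c.IsCycle → x ∈ c.support →
          x ∈ ends c.edges.toFinset := by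
        intro u c hc hx
        unfold ends
        rw [mem_filter]
        obtain ⟨e, he, hxe⟩ :=
          (SimpleGraph.Walk.mem_support_iff_exists_mem_edges_of_not_nil hc.not_nil).1 hx
        exact ⟨mem_univ _, e, List.mem_toFinset.2 he, hxe⟩
      by_contra hcon
      have hne : c.edges.toFinset ≠ c'.edges.toFinset := by
        intro h1
        apply hcon
        rw [← List.mem_toFinset, h1, List.mem_toFinset]
      have h1 : Disjoint _ _ := hd c.edges.toFinset c'.edges.toFinset ⟨u, c, hc1, hl, rfl⟩
        ⟨v, c', hc2, hl', rfl⟩ hne
      rw [Finset.disjoint_left] at h1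
      exact h1 (hmem c hc1 hx1) (hmem c' hc2 hx2)
    have hcnt : ∀ (v : V) (c : G.Walk v v), cnt G c.edges.toFinset 1 = turns G c := by
      intro v c
      unfold cnt turns mu
      rw [← Set.ncard_coe_finset]
      congr 1
      ext x
      rw [mem_coe, mem_filter, Set.mem_setOf_eq, ← Set.ncard_coe_finset]
      simp only [mem_univ, true_and]
      have h1 : ((c.edges.toFinset.filter fun e => x ∈ e ∧ OnFive G e : Finset (Sym2 V)) :
          Set (Sym2 V)) = {e | (e ∈ c.edges ∧ x ∈ e) ∧ ∃ P, IsFive G P ∧ e ∈ P} := by
        ext e
        rw [mem_coe, mem_filter, List.mem_toFinset, onFive_iff, Set.mem_setOf_eq, and_assoc]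
        simp only [hfive]
      rw [h1]
    have h5 := plane_five R hplane hΔ hG hdj (p := 20) (q := 7) (by norm_num) (by norm_num)
      (by norm_num) (fun v c hc' hl => by
        rcases hl with hl | hl
        · have h2 := (hc v c hc').1 hl
          have h1 : cnt G c.edges.toFinset 1 = 0 := by
            unfold cnt
            rw [card_eq_zero, filter_eq_empty_iff]
            intro x _ hx
            have h1 : 0 < mu G c.edges.toFinset x := by omega
            unfold mu at h1
            obtain ⟨e, he⟩ := card_pos.1 h1
            rw [mem_filter, List.mem_toFinset] at he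
            obtain ⟨P, hP, heP⟩ := onFive_iff.1 he.2.2
            exact h2 e he.1 P ((hfive P).2 hP) heP
          rw [hl, h1]
          omega
        · have h2 := (hc v c hc').2 hl
          rw [← hcnt] at h2
          rw [hl]
          omega)
    exact h5

end Pool.Agent.Results.MP_392c8e_co.ApexColouring
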