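import Pool.Agent.Work.MP_392c8e_co_odd.FarFive

/-!
# Circular colourings of triangle-free plane graphs whose 5-cycles are far apart
-/

namespace Pool.Agent.Results.MP_392c8e_co.FarPentagons

open Finset Pool.Agent.Sub392 Pool.Agent.OddFlow

/-- Any two different cycles of length `5` have distance at least `n`: two such cycles which do not
have the same edges have no vertices `x`, `y` with a path of fewer than `n` edges from `x` to `y`
(`G.dist x y` is the length of a shortest path). -/
def FarFive {V : Type} (G : SimpleGraph V) (n : ℕ) : Prop :=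
  ∀ (u v : V) (c : G.Walk u u) (c' : G.Walk v v), c.IsCycle → c'.IsCycle → c.length = 5 →
    c'.length = 5 → (∃ e, ¬ (e ∈ c.edges ↔ e ∈ c'.edges)) →
      ∀ x ∈ c.support, ∀ y ∈ c'.support, n ≤ G.dist x y

/-- Let `G` be a simple triangle-free graph drawn on the sphere such that any two different
5-cycles have distance at least `2 k`, where `k ≥ 1`.  Let `q ≥ 1` and `p / q ≥ 20 / 7`.  If
`12 p ≤ (25 p - 70 q) (2 k + 3)`, or if all degrees are at most `3` and
`8 p ≤ (25 p - 70 q) (2 k + 3)`, then `G` has a `(p, q)`-colouring.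

For `(p, q) = (20, 7)`: distance at least `22` is enough for arbitrary degrees, and distance at
least `14` is enough if all degrees are at most `3`. -/
theorem result (V : Type) [Fintype V] [DecidableEq V] (G : SimpleGraph V) [DecidableRel G.Adj]
    (R : Rot G) (hplane : R.Plane) (hG : G.CliqueFree 3) (k : ℕ) (hk : 1 ≤ k)
    (hfar : FarFive G (2 * k)) (p q : ℕ) (hq : 1 ≤ q) (h20 : 20 * q ≤ 7 * p)
    (hpq : 12 * p ≤ (25 * p - 70 * q) * (2 * k + 3) ∨
      (∀ v, G.degree v ≤ 3) ∧ 8 * p ≤ (25 * p - 70 * q) * (2 * k + 3)) :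
    ∃ c : V → ℕ, (∀ v, c v < p) ∧
      ∀ u v, G.Adj u v → (q : ℤ) ≤ |(c u : ℤ) - c v| ∧ |(c u : ℤ) - c v| ≤ p - q := by
  have hfar' : OddFlow.FarFive G (2 * k) := by
    intro u v c c' hc hc' h5 h5' x hx y hy hxy
    by_contra h
    have h1 := hfar u v c c' hc hc' h5 h5' (not_forall.1 h) x hx y hy
    omega
  rcases hpq with hpq | ⟨hΔ, hpq⟩
  · exact plane_far R hplane hG hk hfar' hq h20 hpq
  · exact plane_far3 R hplane hΔ hG hk hfar' hq h20 hpq

end Pool.Agent.Results.MP_392c8e_co.FarPentagons
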