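import Pool.Agent.Work.MP_392c8e_co_t1.Ladder
import Pool.Agent.Work.MP_392c8e_co_t1.Final
import Pool.Agent.Work.MP_392c8e_co_t1.AllFacts

/-!
# Fullerenes and the ladder: circular colourings of triangle-free subcubic plane graphs
-/

namespace Pool.Agent.Results.MP_392c8e_co.FullereneColouring

open Pool.Agent.Sub392

/-- `m s = s - 2 - 2 ⌊s / 3⌋`: the largest `j` of the parity of `s` with `3 j + 2 ≤ s`.
`m 4 = m 6 = 0`, `m 5 = m 7 = m 9 = 1`, `m 8 = m 10 = m 12 = 2`. -/
def m (s : ℕ) : ℕ := s - 2 - 2 * (s / 3)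

/-- **The ladder.**  Let `G` be a connected triangle-free graph with all degrees at most three,
drawn on the sphere.  If the sum of `m` over the lengths of the faces is at most `2 M + 1`, then
`G` has a `(3 M + 2, M + 1)`-colouring.  (For `M = 6` the conclusion is `χ_c(G) ≤ 20 / 7`, and the
hypothesis holds if all faces have length at most six, since then `2 n₄ + n₅ ≤ 12` by Euler's
formula; in particular for all fullerenes.) -/
theorem result (V : Type) [Fintype V] [DecidableEq V] (G : SimpleGraph V) [DecidableRel G.Adj]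
    (hfree : G.CliqueFree 3) (hdeg : ∀ v, G.degree v ≤ 3) (R : Rot G) (hplane : R.Plane)
    (M : ℕ) (hM : ∑ f, m (R.size f) ≤ 2 * M + 1) :
    ∃ c : V → ℕ, (∀ v, c v < 3 * M + 2) ∧
      ∀ u v, G.Adj u v → (M : ℤ) + 1 ≤ |(c u : ℤ) - c v| ∧ |(c u : ℤ) - c v| ≤ 2 * M + 1 := by
  obtain ⟨c, hc, h⟩ := T1Red.colour_of_hasStrict R hplane
    (T392.facts.of_plane hfree hdeg R hplane) M hM
  refine ⟨c, hc, fun u v huv => ⟨?_, ?_⟩⟩
  · have := (h u v huv).1
    push_cast at this
    exact this
  · have := (h u v huv).2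
    push_cast at this
    linarith

end Pool.Agent.Results.MP_392c8e_co.FullereneColouring
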