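import Pool.Agent.Work.MP_392c8e_co_unl.WholeX

/-!
# A uniform bound less than three for the circular chromatic number of triangle-free subcubic
planar graphs
-/

namespace Pool.Agent.Results.MP_392c8e_co.UniformColouring

/-- The number `10 ^ 100000`. -/
def N : ℕ := 10 ^ 100000

theorem N_eq : 10 ^ 100000 = N := rfl

/-- Let `G` be a finite triangle-free graph with all degrees at most `3` which can be drawn in the
plane without crossings (`p v` is the point of the vertex `v`, and `γ u v` is the curve of the edge
`u v`).  Let `m` be at least the minimum of `N = 10 ^ 100000` and the number of vertices of `G`.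
Then `G` has a `(3 m, m + 1)`-colouring.  So the circular chromatic number of `G` is at most
`3 N / (N + 1)`: one bound less than `3` for all these graphs. -/
theorem result (V : Type) [Fintype V] (G : SimpleGraph V) (hfree : G.CliqueFree 3)
    (hdeg : ∀ v, (G.neighborSet v).ncard ≤ 3)
    (hplanar : ∃ (p : V → ℝ × ℝ) (γ : V → V → unitInterval → ℝ × ℝ),
      Function.Injective p ∧
      (∀ u v, G.Adj u v →
        Continuous (γ u v) ∧ Function.Injective (γ u v) ∧
        γ u v 0 = p u ∧ γ u v 1 = p v ∧
        ∀ (t : unitInterval) (w : V), γ u v t = p w → w = u ∨ w = v) ∧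
      (∀ u v x y, G.Adj u v → G.Adj x y → s(u, v) ≠ s(x, y) →
        ∀ (a b : unitInterval), γ u v a = γ x y b →
          (γ u v a = p u ∨ γ u v a = p v) ∧ (γ u v a = p x ∨ γ u v a = p y)))
    (m : ℕ) (hm : min (Fintype.card V) N ≤ m) :
    ∃ c : V → ℕ, (∀ v, c v < 3 * m) ∧ ∀ u v, G.Adj u v →
      (m + 1 : ℤ) ≤ |(c u : ℤ) - c v| ∧ |(c u : ℤ) - c v| ≤ 3 * m - (m + 1) :=
  Pool.Agent.WholeX.whole N N_eq V G hfree hdeg hplanar m hm

end Pool.Agent.Results.MP_392c8e_co.UniformColouring
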